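import Mathlib

/-!
# The non-transversality set of a `C²` submanifold of `J¹(ℝ, ℝ)` need not be a countable union of `C¹`
submanifolds
-/

set_option autoImplicit false

namespace Pool.Agent.Results.MP_5de00f_gt.NotCountableUnion

open Set Topology Filter

/-- `M` is an embedded `C^k` submanifold of codimension `c` of the finite-dimensional space `E`: around
each point of `M` there is a `C^k` chart of `E` which maps `M` to a linear subspace of codimension `c`. -/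
def IsSubmanifold {E : Type} [NormedAddCommGroup E] [NormedSpace ℝ E] (k : WithTop ℕ∞) (c : ℕ)
    (M : Set E) : Prop :=
  ∀ a ∈ M, ∃ (Φ : OpenPartialHomeomorph E E) (E₀ : Submodule ℝ E), a ∈ Φ.source ∧
    ContDiffOn ℝ k Φ Φ.source ∧ ContDiffOn ℝ k Φ.symm Φ.target ∧
    Module.finrank ℝ E₀ + c = Module.finrank ℝ E ∧ ∀ p ∈ Φ.source, p ∈ M ↔ Φ p ∈ E₀

/-- The tangent vectors of `A` at `a`: the velocities at `0` of the curves in `A` through `a`. -/
def tangentSet {E : Type} [NormedAddCommGroup E] [NormedSpace ℝ E] (A : Set E) (a : E) : Set E :=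
  {v | ∃ γ : ℝ → E, γ 0 = a ∧ (∀ᶠ t in 𝓝 0, γ t ∈ A) ∧ HasDerivAt γ v 0}

/-- The `1`-jet extension of `g : ℝ → ℝ`, with values in `J¹(ℝ, ℝ) = ℝ³`. -/
noncomputable def jet1 (g : ℝ → ℝ) (t : ℝ) : ℝ × ℝ × ℝ := (t, g t, deriv g t)

/-- The `2`-jet extension of `g : ℝ → ℝ`, with values in `J²(ℝ, ℝ) = ℝ⁴`. -/
noncomputable def jet2 (g : ℝ → ℝ) (t : ℝ) : ℝ × ℝ × ℝ × ℝ := (t, g t, deriv g t, deriv (deriv g) t)

/-- The set `Ã ⊆ J²(ℝ, ℝ)`: the `2`-jets at `x` of the smooth functions `g` such that `j¹g` meets `A` at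
`x` and is not transverse to `A` there. -/
def nonTransverse (A : Set (ℝ × ℝ × ℝ)) : Set (ℝ × ℝ × ℝ × ℝ) :=
  {z | ∃ (g : ℝ → ℝ) (x : ℝ), ContDiff ℝ ((⊤ : ℕ∞) : WithTop ℕ∞) g ∧ jet2 g x = z ∧ jet1 g x ∈ A ∧
    Submodule.span ℝ (insert (deriv (jet1 g) x) (tangentSet A (jet1 g x))) ≠ ⊤}

/-! ### The function `f` -/

/-- A smooth `1`-periodic function. -/
noncomputable def θ (t : ℝ) : ℝ := expNegInvGlue (-Real.sin (2 * Real.pi * t))

theorem θ_nonneg (t : ℝ) : 0 ≤ θ t := expNegInvGlue.nonneg _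

theorem θ_le (t : ℝ) : θ t ≤ expNegInvGlue 1 :=
  expNegInvGlue.monotone (by linarith [Real.neg_one_le_sin (2 * Real.pi * t)])

/-- The derivative of `θ`. -/
noncomputable def θ' (t : ℝ) : ℝ :=
  deriv expNegInvGlue (-Real.sin (2 * Real.pi * t)) * (-(Real.cos (2 * Real.pi * t) * (2 * Real.pi)))

theorem contDiff_glue : ContDiff ℝ 1 expNegInvGlue := expNegInvGlue.contDiff (n := 1)

theorem hasDerivAt_θ (t : ℝ) : HasDerivAt θ (θ' t) t := by
  have h1 : HasDerivAt expNegInvGlue (deriv expNegInvGlue (-Real.sin (2 * Real.pi * t)))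
      (-Real.sin (2 * Real.pi * t)) :=
    ((contDiff_glue.differentiable one_ne_zero) _).hasDerivAt
  have h2 : HasDerivAt (fun t => -Real.sin (2 * Real.pi * t))
      (-(Real.cos (2 * Real.pi * t) * (2 * Real.pi))) t := by
    have h3 : HasDerivAt (fun t : ℝ => 2 * Real.pi * t) (2 * Real.pi) t := by
      simpa using (hasDerivAt_id t).const_mul (2 * Real.pi)
    exact (h3.sin).neg
  exact h1.comp t h2

theorem continuous_θ' : Continuous θ' := by
  have h1 : Continuous (deriv expNegInvGlue) := contDiff_glue.continuous_deriv le_rfl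
  unfold θ'
  fun_prop

theorem exists_bound_θ' : ∃ M, 0 ≤ M ∧ ∀ t, |θ' t| ≤ M := by
  have h1 : Continuous (deriv expNegInvGlue) := contDiff_glue.continuous_deriv le_rfl
  obtain ⟨B, hB⟩ := (isCompact_Icc (a := (-1 : ℝ)) (b := 1)).exists_bound_of_continuousOn
    h1.continuousOn
  refine ⟨B * (2 * Real.pi), ?_, fun t => ?_⟩
  · have := (norm_nonneg _).trans (hB 0 (by norm_num))
    positivity
  · have hs : -Real.sin (2 * Real.pi * t) ∈ Icc (-1 : ℝ) 1 :=
      ⟨by linarith [Real.sin_le_one (2 * Real.pi * t)],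
        by linarith [Real.neg_one_le_sin (2 * Real.pi * t)]⟩
    have h2 := hB _ hs
    have h3 : |Real.cos (2 * Real.pi * t)| ≤ 1 := Real.abs_cos_le_one _
    have h0 : 0 ≤ B := (norm_nonneg _).trans h2
    unfold θ'
    rw [abs_mul, abs_neg, abs_mul, abs_of_pos (by positivity : (0 : ℝ) < 2 * Real.pi)]
    rw [Real.norm_eq_abs] at h2
    apply mul_le_mul h2 _ (by positivity) h0
    calc |Real.cos (2 * Real.pi * t)| * (2 * Real.pi) ≤ 1 * (2 * Real.pi) := by gcongr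
      _ = 2 * Real.pi := one_mul _

/-- The function `f`. -/
noncomputable def f (x : ℝ) : ℝ := ∑' n : ℕ, (1 / 8 : ℝ) ^ n * θ (4 ^ n * x)

/-- The derivative of `f`. -/
noncomputable def f' (x : ℝ) : ℝ := ∑' n : ℕ, (1 / 2 : ℝ) ^ n * θ' (4 ^ n * x)

theorem summable_f (x : ℝ) : Summable fun n : ℕ => (1 / 8 : ℝ) ^ n * θ (4 ^ n * x) := by
  have h1 : Summable fun n : ℕ => (1 / 8 : ℝ) ^ n * expNegInvGlue 1 :=
    (summable_geometric_of_lt_one (by norm_num) (by norm_num)).mul_right _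
  refine Summable.of_nonneg_of_le (fun n => mul_nonneg (by positivity) (θ_nonneg _)) (fun n => ?_) h1
  exact mul_le_mul_of_nonneg_left (θ_le _) (by positivity)

theorem hasDerivAt_f (x : ℝ) : HasDerivAt f (f' x) x := by
  obtain ⟨M, hM0, hM⟩ := exists_bound_θ'
  have h1 : Summable fun n : ℕ => (1 / 2 : ℝ) ^ n * M :=
    (summable_geometric_of_lt_one (by norm_num) (by norm_num)).mul_right _
  refine hasDerivAt_tsum h1 (g := fun n (x : ℝ) => (1 / 8 : ℝ) ^ n * θ (4 ^ n * x))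
    (g' := fun n (x : ℝ) => (1 / 2 : ℝ) ^ n * θ' (4 ^ n * x)) (y₀ := 0) ?_ ?_ (summable_f 0) x
  · intro n y
    have h2 : HasDerivAt (fun x : ℝ => 4 ^ n * x) (4 ^ n) y := by
      simpa using (hasDerivAt_id y).const_mul ((4 : ℝ) ^ n)
    have h3 := ((hasDerivAt_θ (4 ^ n * y)).comp y h2).const_mul ((1 / 8 : ℝ) ^ n)
    have h4 : (1 / 8 : ℝ) ^ n * (θ' (4 ^ n * y) * 4 ^ n) = (1 / 2 : ℝ) ^ n * θ' (4 ^ n * y) := by
      have : (1 / 2 : ℝ) ^ n = (1 / 8 : ℝ) ^ n * 4 ^ n := by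
        rw [← mul_pow]; norm_num
      rw [this]; ring
    rw [h4] at h3
    exact h3
  · intro n y
    rw [Real.norm_eq_abs, abs_mul, abs_of_nonneg (by positivity : (0 : ℝ) ≤ (1 / 2) ^ n)]
    exact mul_le_mul_of_nonneg_left (hM _) (by positivity)

theorem continuous_f' : Continuous f' := by
  obtain ⟨M, hM0, hM⟩ := exists_bound_θ'
  have h1 : Summable fun n : ℕ => (1 / 2 : ℝ) ^ n * M :=
    (summable_geometric_of_lt_one (by norm_num) (by norm_num)).mul_right _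
  refine continuous_tsum (fun n => ?_) h1 (fun n y => ?_)
  · exact continuous_const.mul (continuous_θ'.comp (continuous_const.mul continuous_id))
  · rw [Real.norm_eq_abs, abs_mul, abs_of_nonneg (by positivity : (0 : ℝ) ≤ (1 / 2) ^ n)]
    exact mul_le_mul_of_nonneg_left (hM _) (by positivity)

theorem continuous_f : Continuous f :=
  continuous_iff_continuousAt.mpr fun x => (hasDerivAt_f x).continuousAt

theorem contDiff_f : ContDiff ℝ 1 f := by
  rw [contDiff_one_iff_deriv]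
  refine ⟨fun x => (hasDerivAt_f x).differentiableAt, ?_⟩
  have : deriv f = f' := funext fun x => (hasDerivAt_f x).deriv
  rw [this]
  exact continuous_f'

/-- The primitive of `f`. -/
noncomputable def φ (x : ℝ) : ℝ := ∫ t in (0 : ℝ)..x, f t

theorem hasDerivAt_φ (x : ℝ) : HasDerivAt φ (f x) x :=
  intervalIntegral.integral_hasDerivAt_right (continuous_f.intervalIntegrable _ _)
    (continuous_f.stronglyMeasurableAtFilter _ _) continuous_f.continuousAt

theorem contDiff_φ : ContDiff ℝ 2 φ := by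
  have h : deriv φ = f := funext fun x => (hasDerivAt_φ x).deriv
  rw [show (2 : WithTop ℕ∞) = 1 + 1 by norm_num, contDiff_succ_iff_deriv]
  refine ⟨fun x => (hasDerivAt_φ x).differentiableAt, by simp, ?_⟩
  rw [h]
  exact contDiff_f

/-- `f` is not small near its zeros. -/
theorem f_large (x : ℝ) (ε : ℝ) (hε : 0 < ε) : ∃ y, |y - x| < ε ∧ (y - x) ^ 2 < f y := by
  obtain ⟨n, hn⟩ : ∃ n : ℕ, (1 / 4 : ℝ) ^ n < ε := exists_pow_lt_of_lt_one hε (by norm_num)
  set m := n + 2 with hm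
  set k : ℤ := ⌊(4 : ℝ) ^ m * x⌋ with hk
  set y : ℝ := ((k : ℝ) + 3 / 4) / 4 ^ m with hy
  have h4 : (0 : ℝ) < 4 ^ m := by positivity
  have hky : (4 : ℝ) ^ m * y = k + 3 / 4 := by rw [hy]; field_simp
  have h1 : |(4 : ℝ) ^ m * y - 4 ^ m * x| ≤ 1 := by
    rw [hky, abs_le]
    have h2 := Int.floor_le ((4 : ℝ) ^ m * x)
    have h3 := Int.lt_floor_add_one ((4 : ℝ) ^ m * x)
    constructor <;> linarith
  have h2 : |y - x| ≤ (1 / 4 : ℝ) ^ m := by
    rw [← mul_sub, abs_mul, abs_of_pos h4] at h1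
    rw [one_div, inv_pow, ← one_div, le_div_iff₀ h4, mul_comm]
    exact h1
  have h3 : (1 / 4 : ℝ) ^ m ≤ (1 / 4 : ℝ) ^ n := pow_le_pow_of_le_one (by norm_num) (by norm_num) (by omega)
  refine ⟨y, lt_of_le_of_lt (h2.trans h3) hn, ?_⟩
  have h5 : (y - x) ^ 2 ≤ (1 / 16 : ℝ) ^ m := by
    calc (y - x) ^ 2 = |y - x| ^ 2 := (sq_abs _).symm
      _ ≤ ((1 / 4 : ℝ) ^ m) ^ 2 := by gcongr
      _ = (1 / 16 : ℝ) ^ m := by rw [← pow_mul, mul_comm, pow_mul]; norm_num
  have h6 : (1 / 8 : ℝ) ^ m * θ (4 ^ m * y) ≤ f y :=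
    (summable_f y).le_tsum m (fun j _ => mul_nonneg (by positivity) (θ_nonneg _))
  have h7 : θ (4 ^ m * y) = expNegInvGlue 1 := by
    unfold θ
    rw [hky]
    congr 1
    have : 2 * Real.pi * ((k : ℝ) + 3 / 4) = (Real.pi + Real.pi / 2) + (k : ℝ) * (2 * Real.pi) := by
      ring
    rw [this, Real.sin_add_int_mul_two_pi]
    rw [Real.sin_add]
    simp
  rw [h7] at h6
  have h8 : Real.exp (-1) = expNegInvGlue 1 := by
    unfold expNegInvGlue
    norm_num
  have h9 : (1 / 4 : ℝ) < Real.exp (-1) := by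
    rw [Real.exp_neg, one_div]
    apply inv_strictAnti₀ (Real.exp_pos 1)
    exact lt_trans Real.exp_one_lt_d9 (by norm_num)
  rw [← h8] at h6
  have h10 : (1 / 2 : ℝ) ^ m ≤ 1 / 4 := by
    calc (1 / 2 : ℝ) ^ m ≤ (1 / 2 : ℝ) ^ 2 :=
          pow_le_pow_of_le_one (by norm_num) (by norm_num) (by omega)
      _ = 1 / 4 := by norm_num
  calc (y - x) ^ 2 ≤ (1 / 16 : ℝ) ^ m := h5
    _ = (1 / 8 : ℝ) ^ m * (1 / 2 : ℝ) ^ m := by rw [← mul_pow]; norm_num
    _ ≤ (1 / 8 : ℝ) ^ m * (1 / 4) := by gcongr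
    _ < (1 / 8 : ℝ) ^ m * Real.exp (-1) := by gcongr
    _ ≤ f y := h6

/-! ### The zeros of `f` -/

theorem cantor_bounds (ε : ℕ → Bool) : 0 ≤ Cardinal.cantorFunction (1 / 4) ε ∧
    Cardinal.cantorFunction (1 / 4) ε ≤ 4 / 3 := by
  have h0 : Cardinal.cantorFunction (1 / 4) (fun _ => false) = 0 := by
    simp [Cardinal.cantorFunction, Cardinal.cantorFunctionAux]
  have h1 : Cardinal.cantorFunction (1 / 4) (fun _ => true) = 4 / 3 := by
    have : Cardinal.cantorFunction (1 / 4) (fun _ => true) = ∑' n : ℕ, (1 / 4 : ℝ) ^ n := by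
      simp [Cardinal.cantorFunction, Cardinal.cantorFunctionAux]
    rw [this, tsum_geometric_of_lt_one (by norm_num) (by norm_num)]
    norm_num
  constructor
  · rw [← h0]
    exact Cardinal.cantorFunction_le (by norm_num) (by norm_num) (by simp)
  · rw [← h1]
    exact Cardinal.cantorFunction_le (by norm_num) (by norm_num) (by simp)

theorem cantor_shift (n : ℕ) : ∀ ε : ℕ → Bool, ∃ k : ℤ, (4 : ℝ) ^ n * Cardinal.cantorFunction (1 / 4) ε =
    k + Cardinal.cantorFunction (1 / 4) (fun i => ε (i + n)) := by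
  induction n with
  | zero => intro ε; exact ⟨0, by simp⟩
  | succ n ih =>
    intro ε
    obtain ⟨k, hk⟩ := ih ε
    have h1 := Cardinal.cantorFunction_succ (c := 1 / 4) (fun i => ε (i + n)) (by norm_num)
      (by norm_num)
    refine ⟨4 * k + 4 * (cond (ε (0 + n)) 1 0), ?_⟩
    rw [pow_succ, mul_comm ((4 : ℝ) ^ n) 4, mul_assoc, hk, h1]
    have h2 : (fun n_1 => ε (n_1 + 1 + n)) = fun i => ε (i + (n + 1)) := by
      funext i; congr 1; omega
    rw [h2]
    push_cast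
    cases ε (0 + n) <;> simp <;> ring

theorem f_cantor (ε : ℕ → Bool) : f (Cardinal.cantorFunction (1 / 4) ε) = 0 := by
  unfold f
  have h : ∀ n : ℕ, (1 / 8 : ℝ) ^ n * θ (4 ^ n * Cardinal.cantorFunction (1 / 4) ε) = 0 := by
    intro n
    obtain ⟨k, hk⟩ := cantor_shift n ε
    have h1 := Cardinal.cantorFunction_succ (c := 1 / 4) (fun i => ε (i + n)) (by norm_num)
      (by norm_num)
    set x := Cardinal.cantorFunction (1 / 4) (fun n_1 => ε (n_1 + 1 + n)) with hx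
    have hb := cantor_bounds (fun n_1 => ε (n_1 + 1 + n))
    rw [← hx] at hb
    have hsin : 0 ≤ Real.sin (2 * Real.pi * (1 / 4 * x)) := by
      apply Real.sin_nonneg_of_nonneg_of_le_pi
      · have := Real.pi_pos; have := hb.1; positivity
      · nlinarith [Real.pi_pos, hb.2]
    have hθ : θ (4 ^ n * Cardinal.cantorFunction (1 / 4) ε) = 0 := by
      unfold θ
      rw [hk, h1, expNegInvGlue.zero_iff_nonpos]
      obtain ⟨j, hj⟩ : ∃ j : ℤ, ((k : ℝ) + (cond (ε (0 + n)) 1 0 + 1 / 4 * x)) = 1 / 4 * x + j := by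
        cases ε (0 + n)
        · exact ⟨k, by simp; ring⟩
        · exact ⟨k + 1, by push_cast; simp; ring⟩
      rw [hj]
      have h3 : 2 * Real.pi * (1 / 4 * x + j) = 2 * Real.pi * (1 / 4 * x) + j * (2 * Real.pi) := by
        ring
      rw [h3, Real.sin_add_int_mul_two_pi]
      linarith
    rw [hθ, mul_zero]
  exact (tsum_congr h).trans tsum_zero

/-! ### The submanifold `A` -/

/-- `A`. -/
def A : Set (ℝ × ℝ × ℝ) := {p | p.2.1 = φ p.1 + p.2.2 ^ 2 / 2}

theorem contDiff_shear : ContDiff ℝ 2 fun p : ℝ × ℝ × ℝ => φ p.1 + p.2.2 ^ 2 / 2 := by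
  have h1 : ContDiff ℝ 2 fun p : ℝ × ℝ × ℝ => φ p.1 := contDiff_φ.comp contDiff_fst
  have h2 : ContDiff ℝ 2 fun p : ℝ × ℝ × ℝ => p.2.2 := contDiff_snd.comp contDiff_snd
  exact h1.add ((h2.pow 2).div_const 2)

/-- The shear straightening `A`. -/
noncomputable def shear : (ℝ × ℝ × ℝ) ≃ₜ (ℝ × ℝ × ℝ) where
  toFun p := (p.1, p.2.1 - (φ p.1 + p.2.2 ^ 2 / 2), p.2.2)
  invFun p := (p.1, p.2.1 + (φ p.1 + p.2.2 ^ 2 / 2), p.2.2)
  left_inv p := by simp
  right_inv p := by simp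
  continuous_toFun := by
    have := contDiff_shear.continuous
    fun_prop
  continuous_invFun := by
    have := contDiff_shear.continuous
    fun_prop

/-- The plane `y = 0`. -/
def plane : Submodule ℝ (ℝ × ℝ × ℝ) :=
  LinearMap.ker ((LinearMap.fst ℝ ℝ ℝ).comp (LinearMap.snd ℝ ℝ (ℝ × ℝ)))

theorem mem_plane (p : ℝ × ℝ × ℝ) : p ∈ plane ↔ p.2.1 = 0 := by
  unfold plane
  rw [LinearMap.mem_ker]
  rfl

theorem isSubmanifold_A : IsSubmanifold 2 1 A := by
  intro a _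
  refine ⟨shear.toOpenPartialHomeomorph, plane, mem_univ _, ?_, ?_, ?_, ?_⟩
  · apply ContDiff.contDiffOn
    change ContDiff ℝ 2 fun p : ℝ × ℝ × ℝ => (p.1, p.2.1 - (φ p.1 + p.2.2 ^ 2 / 2), p.2.2)
    exact contDiff_fst.prodMk (((contDiff_fst.comp contDiff_snd).sub contDiff_shear).prodMk
      (contDiff_snd.comp contDiff_snd))
  · apply ContDiff.contDiffOn
    change ContDiff ℝ 2 fun p : ℝ × ℝ × ℝ => (p.1, p.2.1 + (φ p.1 + p.2.2 ^ 2 / 2), p.2.2)
    exact contDiff_fst.prodMk (((contDiff_fst.comp contDiff_snd).add contDiff_shear).prodMk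
      (contDiff_snd.comp contDiff_snd))
  · have h1 := LinearMap.finrank_range_add_finrank_ker
      ((LinearMap.fst ℝ ℝ ℝ).comp (LinearMap.snd ℝ ℝ (ℝ × ℝ)))
    have h2 : LinearMap.range ((LinearMap.fst ℝ ℝ ℝ).comp (LinearMap.snd ℝ ℝ (ℝ × ℝ))) = ⊤ := by
      rw [LinearMap.range_eq_top]
      intro y
      exact ⟨(0, y, 0), rfl⟩
    rw [h2, finrank_top, Module.finrank_self] at h1
    unfold plane
    omega
  · intro p _
    rw [mem_plane]
    change p.2.1 = φ p.1 + p.2.2 ^ 2 / 2 ↔ p.2.1 - (φ p.1 + p.2.2 ^ 2 / 2) = 0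
    rw [sub_eq_zero]

/-! ### The equations of `Ã` -/

theorem deriv_jet1 (g : ℝ → ℝ) (x : ℝ) (hg : ContDiff ℝ ((⊤ : ℕ∞) : WithTop ℕ∞) g) :
    HasDerivAt (jet1 g) (1, deriv g x, deriv (deriv g) x) x := by
  have h1 : Differentiable ℝ g := hg.differentiable (by simp)
  have h2 : ContDiff ℝ 1 (deriv g) := by
    have h3 : ContDiff ℝ 2 g := hg.of_le (WithTop.coe_le_coe.mpr (le_top : ((2 : ℕ∞) ≤ ⊤)))
    rw [show (2 : WithTop ℕ∞) = 1 + 1 by norm_num, contDiff_succ_iff_deriv] at h3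
    exact h3.2.2
  exact (hasDerivAt_id x).prodMk ((h1 x).hasDerivAt.prodMk
    ((h2.differentiable one_ne_zero) x).hasDerivAt)

theorem tangent_one (x z : ℝ) :
    ((1, f x, 0) : ℝ × ℝ × ℝ) ∈ tangentSet A (x, φ x + z ^ 2 / 2, z) := by
  refine ⟨fun t => (x + t, φ (x + t) + z ^ 2 / 2, z), by simp, Eventually.of_forall fun t => rfl, ?_⟩
  have h1 : HasDerivAt (fun t : ℝ => x + t) 1 0 := by
    simpa using (hasDerivAt_id (0 : ℝ)).const_add x
  have h2 : HasDerivAt (fun t : ℝ => φ (x + t) + z ^ 2 / 2) (f x) 0 := by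
    have h3 : HasDerivAt φ (f x) (x + 0) := by simpa using hasDerivAt_φ x
    simpa using (h3.comp (0 : ℝ) h1).add_const (z ^ 2 / 2)
  exact h1.prodMk (h2.prodMk (hasDerivAt_const _ _))

theorem tangent_two (x z : ℝ) :
    ((0, z, 1) : ℝ × ℝ × ℝ) ∈ tangentSet A (x, φ x + z ^ 2 / 2, z) := by
  refine ⟨fun t => (x, φ x + (z + t) ^ 2 / 2, z + t), by simp, Eventually.of_forall fun t => rfl, ?_⟩
  have h1 : HasDerivAt (fun t : ℝ => z + t) 1 0 := by
    simpa using (hasDerivAt_id (0 : ℝ)).const_add z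
  have h2 : HasDerivAt (fun t : ℝ => φ x + (z + t) ^ 2 / 2) z 0 := by
    have h3 := ((h1.pow 2).div_const 2).const_add (φ x)
    have h4 : ((2 : ℕ) : ℝ) * (z + 0) ^ (2 - 1) * 1 / 2 = z := by norm_num
    rw [h4] at h3
    exact h3
  exact (hasDerivAt_const _ _).prodMk (h2.prodMk h1)

theorem eq_of_mem_nonTransverse (p : ℝ × ℝ × ℝ × ℝ) (hp : p ∈ nonTransverse A) :
    f p.1 = p.2.2.1 * (1 - p.2.2.2) := by
  obtain ⟨g, x, hg, rfl, hA, hspan⟩ := hp
  rw [(deriv_jet1 g x hg).deriv] at hspan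
  have hA' : g x = φ x + (deriv g x) ^ 2 / 2 := hA
  have hj : jet1 g x = (x, φ x + (deriv g x) ^ 2 / 2, deriv g x) := by
    unfold jet1; rw [← hA']
  rw [hj] at hspan
  change f x = deriv g x * (1 - deriv (deriv g) x)
  by_contra hne
  apply hspan
  set z := deriv g x with hz
  set w := deriv (deriv g) x with hw
  set S := Submodule.span ℝ (insert ((1, z, w) : ℝ × ℝ × ℝ)
    (tangentSet A (x, φ x + z ^ 2 / 2, z))) with hS
  have v0 : ((1, z, w) : ℝ × ℝ × ℝ) ∈ S := Submodule.subset_span (mem_insert _ _)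
  have v1 : ((1, f x, 0) : ℝ × ℝ × ℝ) ∈ S :=
    Submodule.subset_span (mem_insert_of_mem _ (tangent_one x z))
  have v2 : ((0, z, 1) : ℝ × ℝ × ℝ) ∈ S :=
    Submodule.subset_span (mem_insert_of_mem _ (tangent_two x z))
  have hD : z * (1 - w) - f x ≠ 0 := fun h => hne (by linarith)
  have v3 : ((0, 1, 0) : ℝ × ℝ × ℝ) ∈ S := by
    have h1 : ((0, z * (1 - w) - f x, 0) : ℝ × ℝ × ℝ) ∈ S := by
      have h2 := S.sub_mem (S.sub_mem v0 v1) (S.smul_mem w v2)
      convert h2 using 1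
      ext <;> simp
      ring
    have h3 := S.smul_mem (z * (1 - w) - f x)⁻¹ h1
    convert h3 using 1
    ext <;> simp [hD]
  rw [eq_top_iff]
  rintro ⟨α, β, γ⟩ -
  have h4 := S.add_mem (S.add_mem (S.smul_mem α v1) (S.smul_mem γ v2))
    (S.smul_mem (β - α * f x - γ * z) v3)
  convert h4 using 1
  ext <;> simp

/-- The points of `Ã` over the zeros of `f`. -/
noncomputable def P (x : ℝ) : ℝ × ℝ × ℝ × ℝ := (x, φ x, 0, 1)

theorem P_mem (x : ℝ) (hx : f x = 0) : P x ∈ nonTransverse A := by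
  set g : ℝ → ℝ := fun t => φ x + (t - x) ^ 2 / 2 with hg
  have hd : ∀ t, HasDerivAt g (t - x) t := by
    intro t
    have h1 : HasDerivAt (fun t : ℝ => t - x) 1 t := (hasDerivAt_id t).sub_const x
    have h3 := ((h1.pow 2).div_const 2).const_add (φ x)
    have h4 : ((2 : ℕ) : ℝ) * (t - x) ^ (2 - 1) * 1 / 2 = t - x := by norm_num
    rw [h4] at h3
    exact h3
  have hd1 : deriv g = fun t => t - x := funext fun t => (hd t).deriv
  have hd2 : ∀ t, HasDerivAt (deriv g) 1 t := by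
    intro t
    rw [hd1]
    exact (hasDerivAt_id t).sub_const x
  have hsm : ContDiff ℝ ((⊤ : ℕ∞) : WithTop ℕ∞) g := by
    rw [hg]
    exact contDiff_const.add (((contDiff_id.sub contDiff_const).pow 2).div_const 2)
  have hj : jet1 g x = (x, φ x, 0) := by
    unfold jet1
    rw [hd1, hg]
    simp
  refine ⟨g, x, hsm, ?_, ?_, ?_⟩
  · unfold jet2 P
    rw [(hd2 x).deriv, hd1, hg]
    simp
  · rw [hj]
    change φ x = φ x + 0 ^ 2 / 2
    simp
  · rw [(deriv_jet1 g x hsm).deriv, hj, (hd2 x).deriv, hd1]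
    intro htop
    have hle : Submodule.span ℝ (insert ((1, x - x, 1) : ℝ × ℝ × ℝ) (tangentSet A (x, φ x, 0))) ≤
        plane := by
      rw [Submodule.span_le]
      rintro v (rfl | ⟨γ, hγ0, hγA, hγ⟩)
      · rw [SetLike.mem_coe, mem_plane]
        simp
      · rw [SetLike.mem_coe, mem_plane]
        have h1 : HasDerivAt (fun t => (γ t).1) v.1 0 := hγ.fst
        have h2 : HasDerivAt (fun t => (γ t).2.1) v.2.1 0 := hγ.snd.fst
        have h3 : HasDerivAt (fun t => (γ t).2.2) v.2.2 0 := hγ.snd.snd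
        have h4 : HasDerivAt (fun t => φ ((γ t).1) + ((γ t).2.2) ^ 2 / 2) 0 0 := by
          have h5 : HasDerivAt φ 0 (γ 0).1 := by
            rw [hγ0, ← hx]
            exact hasDerivAt_φ x
          have h6 := (h5.comp (0 : ℝ) h1).add ((h3.pow 2).div_const 2)
          have h7 : (0 : ℝ) * v.1 + ((2 : ℕ) : ℝ) * (γ 0).2.2 ^ (2 - 1) * v.2.2 / 2 = 0 := by
            rw [hγ0]; simp
          rw [h7] at h6
          exact h6
        have h8 : (fun t => (γ t).2.1) =ᶠ[𝓝 0] fun t => φ ((γ t).1) + ((γ t).2.2) ^ 2 / 2 := by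
          filter_upwards [hγA] with t ht
          exact ht
        exact h2.unique (h4.congr_of_eventuallyEq h8)
    have : ((0, 1, 0) : ℝ × ℝ × ℝ) ∈ plane := hle (by rw [htop]; trivial)
    rw [mem_plane] at this
    simp at this

theorem hasDerivAt_P (x : ℝ) : HasDerivAt P (1, f x, 0, 0) x :=
  (hasDerivAt_id x).prodMk ((hasDerivAt_φ x).prodMk ((hasDerivAt_const _ _).prodMk
    (hasDerivAt_const _ _)))

/-- An uncountable set of reals accumulates at one of its points. -/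
theorem exists_accPt (S : Set ℝ) (hS : ¬ S.Countable) : ∃ x ∈ S, AccPt x (𝓟 S) := by
  by_contra hcon
  push Not at hcon
  apply hS
  have hd : DiscreteTopology S := by
    rw [discreteTopology_subtype_iff]
    intro x hx
    have := hcon x hx
    rw [AccPt, not_neBot] at this
    exact this
  have : Countable S := countable_of_Lindelof_of_discrete
  exact this

/-- The main point. -/
theorem key (M : Set (ℝ × ℝ × ℝ × ℝ)) (c : ℕ) (hM : IsSubmanifold 1 c M)
    (hMA : M ⊆ nonTransverse A) (S : Set ℝ) (hSf : ∀ x ∈ S, f x = 0) (hSM : ∀ x ∈ S, P x ∈ M)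
    (hS : ¬ S.Countable) : False := by
  obtain ⟨x₀, hx₀, hacc⟩ := exists_accPt S hS
  obtain ⟨Φ, E₀, hsrc, hΦ, hΦs, -, hiff⟩ := hM (P x₀) (hSM x₀ hx₀)
  have hf0 := hSf x₀ hx₀
  -- the derivative of `Φ ∘ P`
  have hΦd : HasFDerivAt Φ (fderiv ℝ Φ (P x₀)) (P x₀) :=
    (((hΦ.contDiffAt (Φ.open_source.mem_nhds hsrc)).differentiableAt one_ne_zero)).hasFDerivAt
  have hPd := hasDerivAt_P x₀
  rw [hf0] at hPd
  set e : ℝ × ℝ × ℝ × ℝ := (1, 0, 0, 0) with he
  set v : ℝ × ℝ × ℝ × ℝ := fderiv ℝ Φ (P x₀) e with hv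
  have hcomp : HasDerivAt (fun x => Φ (P x)) v x₀ := hΦd.comp_hasDerivAt x₀ hPd
  -- `v ∈ E₀`
  have hP0 : Φ (P x₀) ∈ E₀ := (hiff _ hsrc).mp (hSM x₀ hx₀)
  have hvE : v ∈ E₀ := by
    have hslope := hasDerivAt_iff_tendsto_slope.mp hcomp
    have hclosed : IsClosed (E₀ : Set (ℝ × ℝ × ℝ × ℝ)) := E₀.closed_of_finiteDimensional
    have hne : (𝓝[≠] x₀ ⊓ 𝓟 S).NeBot := hacc
    refine hclosed.mem_of_tendsto (hslope.mono_left (inf_le_left : 𝓝[≠] x₀ ⊓ 𝓟 S ≤ _)) ?_
    have hev : ∀ᶠ x in 𝓝[≠] x₀ ⊓ 𝓟 S, P x ∈ Φ.source := by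
      have h1 : ∀ᶠ x in 𝓝 x₀, P x ∈ Φ.source :=
        hPd.continuousAt.eventually (Φ.open_source.mem_nhds hsrc)
      exact (h1.filter_mono nhdsWithin_le_nhds).filter_mono inf_le_left
    have hS' : ∀ᶠ x in 𝓝[≠] x₀ ⊓ 𝓟 S, x ∈ S :=
      (eventually_principal.mpr fun x hx => hx).filter_mono inf_le_right
    filter_upwards [hev, hS'] with x hx hxS
    have h2 : Φ (P x) ∈ E₀ := (hiff _ hx).mp (hSM x hxS)
    exact E₀.smul_mem _ (E₀.sub_mem h2 hP0)
  -- the curve `γ` in `M`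
  set γ : ℝ → ℝ × ℝ × ℝ × ℝ := fun s => Φ.symm (Φ (P x₀) + s • v) with hγ
  have hγ0 : γ 0 = P x₀ := by
    simp only [hγ, zero_smul, add_zero]
    exact Φ.left_inv hsrc
  have htgt : Φ (P x₀) ∈ Φ.target := Φ.map_source hsrc
  have hline : HasStrictDerivAt (fun s : ℝ => Φ (P x₀) + s • v) v 0 := by
    have := ((hasStrictDerivAt_id (0 : ℝ)).smul_const v).const_add (Φ (P x₀))
    simpa using this
  have hΦsd : HasStrictFDerivAt Φ.symm (fderiv ℝ Φ.symm (Φ (P x₀))) (Φ (P x₀)) :=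
    (hΦs.contDiffAt (Φ.open_target.mem_nhds htgt)).hasStrictFDerivAt one_ne_zero
  have hinv : fderiv ℝ Φ.symm (Φ (P x₀)) v = e := by
    have h1 : HasFDerivAt (fun p => Φ.symm (Φ p))
        ((fderiv ℝ Φ.symm (Φ (P x₀))).comp (fderiv ℝ Φ (P x₀))) (P x₀) :=
      hΦsd.hasFDerivAt.comp (P x₀) hΦd
    have h2 : HasFDerivAt (fun p => Φ.symm (Φ p)) (ContinuousLinearMap.id ℝ _) (P x₀) := by
      refine (hasFDerivAt_id (P x₀)).congr_of_eventuallyEq ?_
      filter_upwards [Φ.open_source.mem_nhds hsrc] with p hp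
      exact Φ.left_inv hp
    have h3 := h1.unique h2
    have h4 := congrArg (fun L : (ℝ × ℝ × ℝ × ℝ) →L[ℝ] (ℝ × ℝ × ℝ × ℝ) => L e) h3
    simpa using h4
  have hγd : HasStrictDerivAt γ e 0 := by
    have h1 : HasStrictFDerivAt Φ.symm (fderiv ℝ Φ.symm (Φ (P x₀)))
        ((fun s : ℝ => Φ (P x₀) + s • v) 0) := by simpa using hΦsd
    have := h1.comp_hasStrictDerivAt (0 : ℝ) hline
    rw [hinv] at this
    exact this
  have hγM : ∀ᶠ s in 𝓝 (0 : ℝ), γ s ∈ M := by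
    have h1 : ∀ᶠ s in 𝓝 (0 : ℝ), Φ (P x₀) + s • v ∈ Φ.target := by
      have : (fun s : ℝ => Φ (P x₀) + s • v) 0 ∈ Φ.target := by simpa using htgt
      exact hline.hasDerivAt.continuousAt.eventually (Φ.open_target.mem_nhds this)
    filter_upwards [h1] with s hs
    have h2 : γ s ∈ Φ.source := Φ.map_target hs
    rw [hiff _ h2]
    simp only [hγ]
    rw [Φ.right_inv hs]
    exact E₀.add_mem hP0 (E₀.smul_mem _ hvE)
  -- the components of `γ`
  have hx : HasStrictDerivAt (fun s => (γ s).1) 1 0 := hγd.fst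
  have hz : HasDerivAt (fun s => (γ s).2.2.1) 0 0 := hγd.hasDerivAt.snd.snd.fst
  have hw : HasDerivAt (fun s => (γ s).2.2.2) 0 0 := hγd.hasDerivAt.snd.snd.snd
  have hx0 : (γ 0).1 = x₀ := by rw [hγ0]; rfl
  have hz0 : (γ 0).2.2.1 = 0 := by rw [hγ0]; rfl
  have hw0 : (γ 0).2.2.2 = 1 := by rw [hγ0]; rfl
  have ez : ∀ᶠ s in 𝓝 (0 : ℝ), |(γ s).2.2.1| ≤ 1 / 2 * |s| := by
    have := hz.isLittleO.def (show (0 : ℝ) < 1 / 2 by norm_num)
    simpa [hz0] using this
  have ew : ∀ᶠ s in 𝓝 (0 : ℝ), |(γ s).2.2.2 - 1| ≤ 1 / 2 * |s| := by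
    have := hw.isLittleO.def (show (0 : ℝ) < 1 / 2 by norm_num)
    simpa [hw0] using this
  have ex : ∀ᶠ s in 𝓝 (0 : ℝ), |(γ s).1 - x₀ - s| ≤ 1 / 2 * |s| := by
    have := hx.hasDerivAt.isLittleO.def (show (0 : ℝ) < 1 / 2 by norm_num)
    simpa [hx0] using this
  have hev : ∀ᶠ s in 𝓝 (0 : ℝ), f (γ s).1 ≤ ((γ s).1 - x₀) ^ 2 := by
    filter_upwards [ez, ew, ex, hγM] with s h1 h2 h3 h4
    rw [eq_of_mem_nonTransverse _ (hMA h4)]
    have h5 : 1 / 2 * |s| ≤ |(γ s).1 - x₀| := by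
      have h6 : |s| ≤ |(γ s).1 - x₀| + |(γ s).1 - x₀ - s| := by
        calc |s| = |((γ s).1 - x₀) - ((γ s).1 - x₀ - s)| := by ring_nf
          _ ≤ _ := abs_sub _ _
      linarith
    calc (γ s).2.2.1 * (1 - (γ s).2.2.2) ≤ |(γ s).2.2.1 * (1 - (γ s).2.2.2)| := le_abs_self _
      _ = |(γ s).2.2.1| * |(γ s).2.2.2 - 1| := by rw [abs_mul, abs_sub_comm 1]
      _ ≤ (1 / 2 * |s|) * (1 / 2 * |s|) := by gcongr
      _ ≤ |(γ s).1 - x₀| * |(γ s).1 - x₀| := by gcongr
      _ = ((γ s).1 - x₀) ^ 2 := by rw [abs_mul_abs_self]; ring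
  have hmap : map (fun s => (γ s).1) (𝓝 0) = 𝓝 x₀ := by
    have := hx.map_nhds_eq one_ne_zero
    rwa [hx0] at this
  have hev2 : ∀ᶠ y in 𝓝 x₀, f y ≤ (y - x₀) ^ 2 := by
    rw [← hmap, eventually_map]
    exact hev
  obtain ⟨ε, hε, hball⟩ := Metric.eventually_nhds_iff.mp hev2
  obtain ⟨y, hy1, hy2⟩ := f_large x₀ ε hε
  have := hball (by rwa [Real.dist_eq])
  linarith

/-- **Disproof of Q1** (with `X = Y = ℝ`, `p = 1`, `r = 2`, `n = 1`). There is an embedded `C²`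
submanifold `A` of `J¹(ℝ, ℝ) = ℝ³` such that `Ã ⊆ J²(ℝ, ℝ) = ℝ⁴` is not the union of countably many
embedded `C¹` submanifolds, whatever their codimensions (in particular, not of countably many of
codimension `> 1`). -/
theorem result : ∃ A : Set (ℝ × ℝ × ℝ), IsSubmanifold 2 1 A ∧
    ¬ ∃ M : ℕ → Set (ℝ × ℝ × ℝ × ℝ), (∀ i, ∃ c, IsSubmanifold 1 c (M i)) ∧
      ⋃ i, M i = nonTransverse A := by
  refine ⟨A, isSubmanifold_A, ?_⟩
  rintro ⟨M, hM, hU⟩
  choose c hc using hM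
  have h1 : ∀ ε : ℕ → Bool, ∃ i, P (Cardinal.cantorFunction (1 / 4) ε) ∈ M i := by
    intro ε
    have : P (Cardinal.cantorFunction (1 / 4) ε) ∈ ⋃ i, M i := by
      rw [hU]
      exact P_mem _ (f_cantor ε)
    exact mem_iUnion.mp this
  choose i hi using h1
  have h7 : Cardinal.mk (ℕ → Bool) = Cardinal.continuum := by simp
  have h2 : ∃ j, ¬ (i ⁻¹' {j}).Countable := by
    by_contra hcon
    push Not at hcon
    have h3 : (univ : Set (ℕ → Bool)).Countable := by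
      have h4 : (⋃ j, i ⁻¹' {j}) = univ := by
        ext ε; simp
      rw [← h4]
      exact countable_iUnion hcon
    have h5 : Countable (ℕ → Bool) := countable_univ_iff.mp h3
    have h6 := Cardinal.mk_le_aleph0_iff.mpr h5
    rw [h7] at h6
    exact absurd h6 (not_le.mpr Cardinal.aleph0_lt_continuum)
  obtain ⟨j, hj⟩ := h2
  have hinj : Function.Injective (Cardinal.cantorFunction (1 / 4)) :=
    Cardinal.cantorFunction_injective (by norm_num) (by norm_num)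
  refine key (M j) (c j) (hc j) (by rw [← hU]; exact subset_iUnion M j)
    (Cardinal.cantorFunction (1 / 4) '' (i ⁻¹' {j})) ?_ ?_ ?_
  · rintro _ ⟨ε, _, rfl⟩
    exact f_cantor ε
  · rintro _ ⟨ε, hε, rfl⟩
    have : i ε = j := hε
    exact this ▸ hi ε
  · intro hc'
    exact hj ((hc'.preimage_of_injOn hinj.injOn).mono (subset_preimage_image _ _))

end Pool.Agent.Results.MP_5de00f_gt.NotCountableUnion
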